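import Mathlib
import Pool.Agent.R521.Champ.H

/-!
# Weak pair correlations of the orbit of the binary Champernowne constant under doubling

The sequence `x n = {2 ^ n α}`, where `α` is the binary Champernowne constant, has weak pair
correlations with every exponent `0 < β < 1`: `N ^ (β - 2) * R N s β → 2 s` for every `s ≥ 0`.

Proof. Let `A v` be the number of the `n ≤ N` for which the `k` digits of `α` after the place `n` are
the digits of `v`, where `2 ^ k` is of the order of `N ^ β`. Every place lies in the block of some
integer `t`; if the word lies inside the block it is `⌊t / 2 ^ e⌋ mod 2 ^ k` and these are uniformly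
distributed, up to boundary terms which are small compared with `log N` equal terms. The words
across the end of a block consist of the last digits of `t` and of the first digits of `t + 1`;
the number of these visits is a sum of `k` weakly dependent functions of `v`, whose second moment
is computed. This gives `∑ v, A v ^ 2 ≤ (1 + o(1)) N ^ 2 / 2 ^ k`, and the pair correlations at the scale
`N ^ (-β)` follow from this.
-/

set_option autoImplicit false

namespace Pool.Agent.Results.MP_3b2897_nt.EveryExponent

open Finset Filter Topology

/-- The word obtained by writing `1, 2, ..., n` in base `2`, one after another (every integer with its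
most significant digit first). -/
def word (n : ℕ) : List ℕ := (List.range n).flatMap fun i => (Nat.digits 2 (i + 1)).reverse

/-- The letter number `i` (`i = 0, 1, 2, ...`) of the infinite word `1 10 11 100 101 110 ...`. The word
`word (i + 1)` has more than `i` letters. -/
def digit (i : ℕ) : ℕ := (word (i + 1)).getD i 0

/-- The binary Champernowne constant `0.1 10 11 100 101 110 111 1000 ...` (in base `2`). -/
noncomputable def α : ℝ := ∑' i : ℕ, (digit i : ℝ) / 2 ^ (i + 1)

/-- The sequence `x n = {2 ^ n α}`. -/
noncomputable def x (n : ℕ) : ℝ := Int.fract (2 ^ n * α)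

/-- The distance of `t` to the nearest integer. -/
noncomputable def distInt (t : ℝ) : ℝ := |t - round t|

/-- `R N s β`: the number of pairs `(l, m)` with `1 ≤ l, m ≤ N`, `l ≠ m` and
`‖x l - x m‖ ≤ s N ^ (-β)`. -/
noncomputable def R (N : ℕ) (s β : ℝ) : ℕ :=
  ((Icc 1 N ×ˢ Icc 1 N).filter (fun p : ℕ × ℕ => p.1 ≠ p.2 ∧
    distInt (x p.1 - x p.2) ≤ s * (N : ℝ) ^ (-β))).card

lemma x_eq (n : ℕ) : x n = Pool.Agent.R521.Champ.tail n := Pool.Agent.R521.Champ.fract_champ n

lemma R_eq (N : ℕ) (s β : ℝ) : R N s β = Pool.Agent.R521.Champ.RR N s β := by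
  unfold R Pool.Agent.R521.Champ.RR
  simp only [x_eq]
  rfl

/-- The sequence `x n = {2 ^ n α}`, `n ≥ 1`, has weak pair correlations, with every exponent `β` in
`(0, 1)`: for all `0 < β < 1` and `s ≥ 0` the limit of `N ^ (β - 2) * R N s β` is `2 s`. -/
theorem result (β : ℝ) (hβ0 : 0 < β) (hβ1 : β < 1) (s : ℝ) (hs : 0 ≤ s) :
    Tendsto (fun N : ℕ => (N : ℝ) ^ (β - 2) * (R N s β : ℝ)) atTop (𝓝 (2 * s)) := by
  refine (Pool.Agent.R521.Champ.limit_nonneg hβ0 hβ1 hs).congr fun N => ?_
  rw [R_eq, show β - 2 = -(2 - β) by ring, Real.rpow_neg (Nat.cast_nonneg _), div_eq_mul_inv, mul_comm]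

end Pool.Agent.Results.MP_3b2897_nt.EveryExponent
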